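import Mathlib

set_option autoImplicit false

open scoped ENNReal

namespace Pool.Agent.Results.MP_6d826c_an.AlmostNotIsometric

/-! ### The planes `Pl t`: `ℝ × ℝ` with `‖(a,b)‖² = a² + b² + t (|a| + |b|)²` -/

/-- The real plane, to be normed by `‖(a,b)‖² = a² + b² + t (|a| + |b|)²`. -/
def Pl (_t : ℝ) : Type := ℝ × ℝ

instance (t : ℝ) : AddCommGroup (Pl t) := inferInstanceAs (AddCommGroup (ℝ × ℝ))
instance (t : ℝ) : Module ℝ (Pl t) := inferInstanceAs (Module ℝ (ℝ × ℝ))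
instance (t : ℝ) : Module.Finite ℝ (Pl t) := inferInstanceAs (Module.Finite ℝ (ℝ × ℝ))

/-- The target of the embedding which induces the norm of `Pl t`. -/
abbrev Tgt : Type := WithLp 2 (WithLp 2 (ℝ × ℝ) × WithLp 1 (ℝ × ℝ))

/-- The embedding inducing the norm of `Pl t`. -/
noncomputable def emb (t : ℝ) : Pl t →ₗ[ℝ] Tgt where
  toFun x := WithLp.toLp 2 (@WithLp.toLp 2 (ℝ × ℝ) x, Real.sqrt t • @WithLp.toLp 1 (ℝ × ℝ) x)
  map_add' x y := by
    apply (WithLp.equiv 2 _).injective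
    refine Prod.ext ?_ ?_
    · rfl
    · change Real.sqrt t • (@WithLp.toLp 1 (ℝ × ℝ) x + @WithLp.toLp 1 (ℝ × ℝ) y) = _
      rw [smul_add]
      rfl
  map_smul' c x := by
    apply (WithLp.equiv 2 _).injective
    refine Prod.ext ?_ ?_
    · rfl
    · change Real.sqrt t • (c • @WithLp.toLp 1 (ℝ × ℝ) x) =
        c • (Real.sqrt t • @WithLp.toLp 1 (ℝ × ℝ) x)
      rw [smul_comm]

lemma emb_injective (t : ℝ) : Function.Injective (emb t) := by
  intro x y h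
  have h1 : (emb t x).fst = (emb t y).fst := by rw [h]
  exact (WithLp.toLp_injective 2) h1

noncomputable instance (t : ℝ) : NormedAddCommGroup (Pl t) :=
  NormedAddCommGroup.induced (Pl t) Tgt (emb t) (emb_injective t)

noncomputable instance (t : ℝ) : NormedSpace ℝ (Pl t) :=
  NormedSpace.induced ℝ (Pl t) Tgt (emb t)

instance (t : ℝ) : CompleteSpace (Pl t) := FiniteDimensional.complete ℝ (Pl t)

lemma norm_sq (t : ℝ) (ht : 0 ≤ t) (x : Pl t) :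
    ‖x‖ ^ 2 = x.1 ^ 2 + x.2 ^ 2 + t * (|x.1| + |x.2|) ^ 2 := by
  change ‖emb t x‖ ^ 2 = _
  rw [WithLp.prod_norm_sq_eq_of_L2]
  change ‖@WithLp.toLp 2 (ℝ × ℝ) x‖ ^ 2 + ‖Real.sqrt t • @WithLp.toLp 1 (ℝ × ℝ) x‖ ^ 2 = _
  rw [WithLp.prod_norm_sq_eq_of_L2, norm_smul, mul_pow, WithLp.prod_norm_eq_of_L1]
  simp only [Real.norm_eq_abs, sq_abs, Real.sq_sqrt ht]
  rfl

lemma add_fst {t : ℝ} (x y : Pl t) : (x + y).1 = x.1 + y.1 := rfl
lemma add_snd {t : ℝ} (x y : Pl t) : (x + y).2 = x.2 + y.2 := rfl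
lemma sub_fst {t : ℝ} (x y : Pl t) : (x - y).1 = x.1 - y.1 := rfl
lemma sub_snd {t : ℝ} (x y : Pl t) : (x - y).2 = x.2 - y.2 := rfl

/-- The von Neumann-Jordan inequality in `Pl t`, with the sharp constant. -/
lemma nj (t : ℝ) (ht : 0 ≤ t) (x y : Pl t) :
    (1 + t) * (‖x + y‖ ^ 2 + ‖x - y‖ ^ 2) ≤ (2 + 4 * t) * (‖x‖ ^ 2 + ‖y‖ ^ 2) := by
  rw [norm_sq t ht, norm_sq t ht, norm_sq t ht, norm_sq t ht, add_fst, add_snd, sub_fst, sub_snd]
  obtain ⟨a, b⟩ := x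
  obtain ⟨c, d⟩ := y
  simp only
  -- the mixed products
  have key : |a + c| * |b + d| + |a - c| * |b - d| ≤ 2 * (|a| * |b| + |c| * |d|) ∨
      |a + c| * |b + d| + |a - c| * |b - d| ≤ a ^ 2 + b ^ 2 + c ^ 2 + d ^ 2 := by
    rw [← abs_mul, ← abs_mul, ← abs_mul, ← abs_mul]
    have h1 : |a * b + c * d| ≤ |a * b| + |c * d| := abs_add_le _ _
    have h2 := le_abs_self (a * b + c * d)
    have h3 := neg_abs_le (a * b + c * d)
    rcases abs_cases ((a + c) * (b + d)) with ⟨e1, _⟩ | ⟨e1, _⟩ <;>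
    rcases abs_cases ((a - c) * (b - d)) with ⟨e2, _⟩ | ⟨e2, _⟩ <;> rw [e1, e2]
    · left; nlinarith
    · right; nlinarith [sq_nonneg (a - d), sq_nonneg (b - c)]
    · right; nlinarith [sq_nonneg (a + d), sq_nonneg (b + c)]
    · left; nlinarith
  have e1 : (|a + c| + |b + d|) ^ 2 + (|a - c| + |b - d|) ^ 2 =
      2 * (a ^ 2 + b ^ 2 + c ^ 2 + d ^ 2) + 2 * (|a + c| * |b + d| + |a - c| * |b - d|) := by
    have := sq_abs (a + c)
    have := sq_abs (b + d)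
    have := sq_abs (a - c)
    have := sq_abs (b - d)
    nlinarith
  have e2 : (|a| + |b|) ^ 2 + (|c| + |d|) ^ 2 =
      (a ^ 2 + b ^ 2 + c ^ 2 + d ^ 2) + 2 * (|a| * |b| + |c| * |d|) := by
    have := sq_abs a
    have := sq_abs b
    have := sq_abs c
    have := sq_abs d
    nlinarith
  have hP : 0 ≤ |a| * |b| + |c| * |d| := by positivity
  have hS : 0 ≤ a ^ 2 + b ^ 2 + c ^ 2 + d ^ 2 := by positivity
  set S := a ^ 2 + b ^ 2 + c ^ 2 + d ^ 2 with hSdef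
  set P := |a| * |b| + |c| * |d| with hPdef
  set Q := |a + c| * |b + d| + |a - c| * |b - d| with hQdef
  have hL : (a + c) ^ 2 + (b + d) ^ 2 + t * (|a + c| + |b + d|) ^ 2 +
      ((a - c) ^ 2 + (b - d) ^ 2 + t * (|a - c| + |b - d|) ^ 2) =
      2 * S + t * (2 * S + 2 * Q) := by
    have : (a + c) ^ 2 + (b + d) ^ 2 + t * (|a + c| + |b + d|) ^ 2 +
      ((a - c) ^ 2 + (b - d) ^ 2 + t * (|a - c| + |b - d|) ^ 2) =
      2 * S + t * ((|a + c| + |b + d|) ^ 2 + (|a - c| + |b - d|) ^ 2) := by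
        rw [hSdef]; ring
    rw [this, e1]
  have hR : a ^ 2 + b ^ 2 + t * (|a| + |b|) ^ 2 + (c ^ 2 + d ^ 2 + t * (|c| + |d|) ^ 2) =
      S + t * (S + 2 * P) := by
    have : a ^ 2 + b ^ 2 + t * (|a| + |b|) ^ 2 + (c ^ 2 + d ^ 2 + t * (|c| + |d|) ^ 2) =
      S + t * ((|a| + |b|) ^ 2 + (|c| + |d|) ^ 2) := by rw [hSdef]; ring
    rw [this, e2]
  rw [hL, hR]
  have ht2 : 0 ≤ t * t := by positivity
  have htS : 0 ≤ t * S := by positivity
  have httS : 0 ≤ t * t * S := by positivity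
  have htP : 0 ≤ t * P := by positivity
  have httP : 0 ≤ t * t * P := by positivity
  rcases key with h | h
  · have h1 : t * Q ≤ t * (2 * P) := mul_le_mul_of_nonneg_left h ht
    have h2 : t * t * Q ≤ t * t * (2 * P) := mul_le_mul_of_nonneg_left h ht2
    nlinarith
  · have h1 : t * Q ≤ t * S := mul_le_mul_of_nonneg_left h ht
    have h2 : t * t * Q ≤ t * t * S := mul_le_mul_of_nonneg_left h ht2
    nlinarith

/-- Two-uniform convexity of `Pl t`. -/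
lemma two_convex (t τ : ℝ) (ht : 0 ≤ t) (htτ : t ≤ τ) (x y : Pl t) :
    ‖x + y‖ ^ 2 + ‖x - y‖ ^ 2 / (1 + 2 * τ) ≤ 2 * ‖x‖ ^ 2 + 2 * ‖y‖ ^ 2 := by
  have hτ : 0 < 1 + 2 * τ := by linarith
  have h1 : ‖x - y‖ ^ 2 / (1 + 2 * τ) ≤ (x.1 - y.1) ^ 2 + (x.2 - y.2) ^ 2 := by
    rw [div_le_iff₀ hτ, norm_sq t ht, sub_fst, sub_snd]
    have h2 : (|x.1 - y.1| + |x.2 - y.2|) ^ 2 ≤ 2 * ((x.1 - y.1) ^ 2 + (x.2 - y.2) ^ 2) := by
      have := sq_abs (x.1 - y.1)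
      have := sq_abs (x.2 - y.2)
      nlinarith [sq_nonneg (|x.1 - y.1| - |x.2 - y.2|)]
    have h3 : t * (|x.1 - y.1| + |x.2 - y.2|) ^ 2 ≤
        τ * (2 * ((x.1 - y.1) ^ 2 + (x.2 - y.2) ^ 2)) :=
      mul_le_mul htτ h2 (by positivity) (ht.trans htτ)
    nlinarith
  have h4 : (|x.1 + y.1| + |x.2 + y.2|) ^ 2 ≤
      2 * (|x.1| + |x.2|) ^ 2 + 2 * (|y.1| + |y.2|) ^ 2 := by
    have h5 := abs_add_le x.1 y.1
    have h6 := abs_add_le x.2 y.2
    have h7 : (|x.1 + y.1| + |x.2 + y.2|) ^ 2 ≤ ((|x.1| + |x.2|) + (|y.1| + |y.2|)) ^ 2 := by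
      apply pow_le_pow_left₀ (by positivity)
      linarith
    nlinarith [sq_nonneg ((|x.1| + |x.2|) - (|y.1| + |y.2|))]
  have h8 := mul_le_mul_of_nonneg_left h4 ht
  rw [norm_sq t ht (x + y), norm_sq t ht x, norm_sq t ht y, add_fst, add_snd]
  nlinarith

/-! ### The `ℓ₂`-sum of the planes `Pl (tt τ n)` -/

/-- The weights `τ (n+1)/(n+2)`, which increase to `τ` without reaching it. -/
noncomputable def tt (τ : ℝ) (n : ℕ) : ℝ := τ - τ / (n + 2)

lemma tt_nonneg {τ : ℝ} (hτ : 0 < τ) (n : ℕ) : 0 ≤ tt τ n := by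
  unfold tt
  rw [sub_nonneg, div_le_iff₀ (by positivity)]
  nlinarith [Nat.cast_nonneg (α := ℝ) n]

lemma tt_lt {τ : ℝ} (hτ : 0 < τ) (n : ℕ) : tt τ n < τ := by
  unfold tt
  have : 0 < τ / (n + 2) := by positivity
  linarith

/-- The space `X`. -/
abbrev XX (τ : ℝ) : Type := lp (fun n : ℕ => Pl (tt τ n)) 2

lemma hasSum_sq {V : ℕ → Type} [∀ n, NormedAddCommGroup (V n)] (f : lp V 2) :
    HasSum (fun n => ‖f n‖ ^ 2) (‖f‖ ^ 2) := by
  have h := lp.hasSum_norm (p := 2) (by norm_num) f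
  simpa using h

lemma XX_two_convex {τ : ℝ} (hτ : 0 < τ) (x y : XX τ) :
    ‖x + y‖ ^ 2 + ‖x - y‖ ^ 2 / (1 + 2 * τ) ≤ 2 * ‖x‖ ^ 2 + 2 * ‖y‖ ^ 2 := by
  have h1 := (hasSum_sq (x + y)).add ((hasSum_sq (x - y)).div_const (1 + 2 * τ))
  have h2 := ((hasSum_sq x).mul_left 2).add ((hasSum_sq y).mul_left 2)
  refine hasSum_le (fun n => ?_) h1 h2
  exact two_convex (tt τ n) τ (tt_nonneg hτ n) (tt_lt hτ n).le (x n) (y n)

/-- In `X` the von Neumann-Jordan constant of `Pl τ` is not attained. -/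
lemma XX_nj {τ : ℝ} (hτ : 0 < τ) (x y : XX τ) (hx : x ≠ 0) :
    (1 + τ) * (‖x + y‖ ^ 2 + ‖x - y‖ ^ 2) < (2 + 4 * τ) * (‖x‖ ^ 2 + ‖y‖ ^ 2) := by
  have h1 := ((hasSum_sq (x + y)).add (hasSum_sq (x - y))).mul_left (1 + τ)
  have h2 := ((hasSum_sq x).add (hasSum_sq y)).mul_left (2 + 4 * τ)
  have key : ∀ n, (1 + τ) * (‖(x + y) n‖ ^ 2 + ‖(x - y) n‖ ^ 2) +
      (2 * (τ - tt τ n) / (1 + tt τ n)) * (‖x n‖ ^ 2 + ‖y n‖ ^ 2) ≤
      (2 + 4 * τ) * (‖x n‖ ^ 2 + ‖y n‖ ^ 2) := by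
    intro n
    have ht := tt_nonneg hτ n
    have ht' := tt_lt hτ n
    have h3 := nj (tt τ n) ht (x n) (y n)
    have e1 : (x + y) n = x n + y n := rfl
    have e2 : (x - y) n = x n - y n := rfl
    rw [e1, e2]
    set t := tt τ n
    set A := ‖x n + y n‖ ^ 2 + ‖x n - y n‖ ^ 2
    set B := ‖x n‖ ^ 2 + ‖y n‖ ^ 2
    have hpos : 0 < 1 + t := by linarith
    have h4 : A ≤ (2 + 4 * t) / (1 + t) * B := by
      rw [div_mul_eq_mul_div, le_div_iff₀ hpos]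
      linarith
    have h5 : (1 + τ) * A ≤ (1 + τ) * ((2 + 4 * t) / (1 + t) * B) :=
      mul_le_mul_of_nonneg_left h4 (by linarith)
    have h6 : (1 + τ) * ((2 + 4 * t) / (1 + t) * B) + (2 * (τ - t) / (1 + t)) * B =
        (2 + 4 * τ) * B := by
      field_simp
      ring
    linarith
  obtain ⟨n, hn⟩ : ∃ n, x n ≠ 0 := by
    by_contra hcon
    push Not at hcon
    apply hx
    ext1
    funext n
    exact hcon n
  refine hasSum_lt (i := n) (fun m => ?_) ?_ h1 h2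
  · have h7 := key m
    have ht := tt_nonneg hτ m
    have ht' := tt_lt hτ m
    have h8 : 0 ≤ (2 * (τ - tt τ m) / (1 + tt τ m)) * (‖x m‖ ^ 2 + ‖y m‖ ^ 2) := by
      apply mul_nonneg
      · apply div_nonneg <;> linarith
      · positivity
    linarith
  · have h7 := key n
    have ht := tt_nonneg hτ n
    have ht' := tt_lt hτ n
    have h8 : 0 < (2 * (τ - tt τ n) / (1 + tt τ n)) * (‖x n‖ ^ 2 + ‖y n‖ ^ 2) := by
      apply mul_pos
      · apply div_pos <;> linarith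
      · have := norm_pos_iff.mpr hn
        positivity
    linarith

/-- `X` is uniformly convex. -/
lemma XX_uc {τ : ℝ} (hτ : 0 < τ) : UniformConvexSpace (XX τ) := by
  refine ⟨fun ε hε => ⟨ε ^ 2 / (4 * (1 + 2 * τ)), by positivity, fun x hx y hy hxy => ?_⟩⟩
  have h := XX_two_convex hτ x y
  rw [hx, hy] at h
  have hε2 : ε ≤ 2 := by
    have := norm_sub_le x y
    rw [hx, hy] at this
    linarith
  have h1 : ε ^ 2 / (1 + 2 * τ) ≤ ‖x - y‖ ^ 2 / (1 + 2 * τ) := by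
    apply div_le_div_of_nonneg_right _ (by positivity)
    exact pow_le_pow_left₀ hε.le hxy 2
  have h2 : ε ^ 2 / (4 * (1 + 2 * τ)) = (ε ^ 2 / (1 + 2 * τ)) / 4 := by
    field_simp
  rw [h2]
  set δ := ε ^ 2 / (1 + 2 * τ) with hδ
  have h3 : δ ≤ 4 := by
    rw [hδ, div_le_iff₀ (by positivity)]
    nlinarith
  apply le_of_sq_le_sq _ (by linarith)
  nlinarith [sq_nonneg δ]

lemma midpoint_unique {τ : ℝ} (hτ : 0 < τ) (u v : XX τ) (r : ℝ) (hu : ‖u‖ = r) (hv : ‖v‖ = r)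
    (huv : ‖u + v‖ = 2 * r) : u = v := by
  have h := XX_two_convex hτ u v
  rw [hu, hv, huv] at h
  have h1 : ‖u - v‖ ^ 2 / (1 + 2 * τ) ≤ 0 := by nlinarith
  rw [div_le_iff₀ (by positivity), zero_mul] at h1
  have h2 : ‖u - v‖ = 0 := by
    have := norm_nonneg (u - v)
    nlinarith
  exact sub_eq_zero.mp (norm_eq_zero.mp h2)

/-! ### The four-point metric space `{-e₁, e₁, 0, e₂} ⊆ Pl τ` -/

/-- Coordinates of the four points. -/
def pt : Fin 4 → ℝ × ℝ := ![(-1, 0), (1, 0), (0, 0), (0, 1)]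

/-- The four points as points of `Pl τ`. -/
def pts (τ : ℝ) : Fin 4 → Pl τ := pt

lemma pts_injective (τ : ℝ) : Function.Injective (pts τ) := by
  intro i j h
  have h' : pt i = pt j := h
  fin_cases i <;> fin_cases j <;> simp_all [pt, Prod.ext_iff] <;> norm_num at h'

/-- Comparing the norms of `Pl t` and `Pl τ`. -/
lemma norm_compare {t τ : ℝ} (ht : 0 ≤ t) (htτ : t ≤ τ) (v : ℝ × ℝ) :
    ‖(show Pl t from v)‖ ≤ ‖(show Pl τ from v)‖ ∧
      ‖(show Pl τ from v)‖ ≤ (1 + (τ - t)) * ‖(show Pl t from v)‖ := by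
  have h1 := norm_sq t ht (show Pl t from v)
  have h2 := norm_sq τ (ht.trans htτ) (show Pl τ from v)
  have e1 : (show Pl t from v).1 = v.1 := rfl
  have e2 : (show Pl t from v).2 = v.2 := rfl
  have e3 : (show Pl τ from v).1 = v.1 := rfl
  have e4 : (show Pl τ from v).2 = v.2 := rfl
  rw [e1, e2] at h1
  rw [e3, e4] at h2
  have h3 : 0 ≤ (|v.1| + |v.2|) ^ 2 := by positivity
  have h4 : (|v.1| + |v.2|) ^ 2 ≤ 2 * (v.1 ^ 2 + v.2 ^ 2) := by
    have := sq_abs v.1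
    have := sq_abs v.2
    nlinarith [sq_nonneg (|v.1| - |v.2|)]
  have h0 : 0 ≤ τ - t := by linarith
  have ht3 : 0 ≤ t * (|v.1| + |v.2|) ^ 2 := by positivity
  constructor
  · apply le_of_sq_le_sq _ (norm_nonneg _)
    rw [h1, h2]
    nlinarith
  · apply le_of_sq_le_sq _ (mul_nonneg (by linarith) (norm_nonneg _))
    rw [mul_pow, h1, h2]
    have h5 : 0 ≤ v.1 ^ 2 + v.2 ^ 2 := by positivity
    have h6 := mul_le_mul_of_nonneg_left h4 h0
    have h7 : 0 ≤ (τ - t) * (t * (|v.1| + |v.2|) ^ 2) := by positivity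
    have h8 : 0 ≤ (τ - t) ^ 2 * (v.1 ^ 2 + v.2 ^ 2 + t * (|v.1| + |v.2|) ^ 2) := by positivity
    nlinarith

lemma almost {τ : ℝ} (hτ : 0 < τ) (ε : ℝ) (hε : 0 < ε) :
    ∃ f : Fin 4 → XX τ, ∀ a b : Fin 4, ‖pts τ a - pts τ b‖ ≤ ‖f a - f b‖ ∧
      ‖f a - f b‖ ≤ (1 + ε) * ‖pts τ a - pts τ b‖ := by
  obtain ⟨n, hn⟩ := exists_nat_gt (τ / ε)
  have hδ : τ - tt τ n ≤ ε := by
    unfold tt
    have : τ / (n + 2) ≤ ε := by
      rw [div_le_iff₀ (by positivity)]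
      rw [div_lt_iff₀ hε] at hn
      nlinarith
    linarith
  have hδ0 : 0 < τ - tt τ n := sub_pos.mpr (tt_lt hτ n)
  refine ⟨fun a => lp.single 2 n ((1 + (τ - tt τ n)) • (show Pl (tt τ n) from pt a)), fun a b => ?_⟩
  have e : lp.single (E := fun n : ℕ => Pl (tt τ n)) 2 n
        ((1 + (τ - tt τ n)) • (show Pl (tt τ n) from pt a)) -
      lp.single 2 n ((1 + (τ - tt τ n)) • (show Pl (tt τ n) from pt b)) =
      lp.single 2 n ((1 + (τ - tt τ n)) • (show Pl (tt τ n) from pt a - pt b)) := by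
    rw [← lp.single_sub, ← smul_sub]
    rfl
  have hc := norm_compare (tt_nonneg hτ n) (tt_lt hτ n).le (pt a - pt b)
  have e2 : pts τ a - pts τ b = (show Pl τ from pt a - pt b) := rfl
  simp only
  rw [e, lp.norm_single (by norm_num), norm_smul, Real.norm_of_nonneg (by linarith), e2]
  refine ⟨hc.2, ?_⟩
  have h1 := hc.1
  have h2 := norm_nonneg (show Pl (tt τ n) from pt a - pt b)
  have h3 := norm_nonneg (show Pl τ from pt a - pt b)
  calc (1 + (τ - tt τ n)) * ‖(show Pl (tt τ n) from pt a - pt b)‖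
      ≤ (1 + (τ - tt τ n)) * ‖(show Pl τ from pt a - pt b)‖ :=
        mul_le_mul_of_nonneg_left h1 (by linarith)
    _ ≤ (1 + ε) * ‖(show Pl τ from pt a - pt b)‖ :=
        mul_le_mul_of_nonneg_right (by linarith) h3

lemma not_iso {τ : ℝ} (hτ : 0 < τ) :
    ¬ ∃ f : Fin 4 → XX τ, ∀ a b : Fin 4, ‖f a - f b‖ = ‖pts τ a - pts τ b‖ := by
  rintro ⟨f, hf⟩
  have hr0 : 0 < 1 + τ := by linarith
  have hn : ∀ a b : Fin 4, ‖f a - f b‖ ^ 2 =
      ((pt a).1 - (pt b).1) ^ 2 + ((pt a).2 - (pt b).2) ^ 2 +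
        τ * (|(pt a).1 - (pt b).1| + |(pt a).2 - (pt b).2|) ^ 2 := by
    intro a b
    rw [hf a b, norm_sq τ hτ.le]
    rfl
  have h12 : ‖f 1 - f 2‖ ^ 2 = 1 + τ := by
    rw [hn]; simp [pt]
  have h20 : ‖f 2 - f 0‖ ^ 2 = 1 + τ := by
    rw [hn]; simp [pt]
  have h10 : ‖f 1 - f 0‖ ^ 2 = 4 * (1 + τ) := by
    rw [hn]; simp [pt]; norm_num; ring
  have h32 : ‖f 3 - f 2‖ ^ 2 = 1 + τ := by
    rw [hn]; simp [pt]
  have h13 : ‖f 1 - f 3‖ ^ 2 = 2 + 4 * τ := by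
    rw [hn]; simp [pt]; norm_num; ring
  have h30 : ‖f 3 - f 0‖ ^ 2 = 2 + 4 * τ := by
    rw [hn]; simp [pt]; norm_num; ring
  have hu : f 1 - f 2 = f 2 - f 0 := by
    apply midpoint_unique hτ _ _ (Real.sqrt (1 + τ))
    · rw [← h12, Real.sqrt_sq (norm_nonneg _)]
    · rw [← h20, Real.sqrt_sq (norm_nonneg _)]
    · have e : f 1 - f 2 + (f 2 - f 0) = f 1 - f 0 := by abel
      rw [e, ← Real.sqrt_sq (norm_nonneg (f 1 - f 0)), h10,
        show (4 : ℝ) * (1 + τ) = 2 ^ 2 * (1 + τ) by ring, Real.sqrt_mul (by positivity),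
        Real.sqrt_sq (by norm_num)]
  have hne : f 1 - f 2 ≠ 0 := by
    intro h0
    rw [h0, norm_zero] at h12
    norm_num at h12
    linarith
  have hlt := XX_nj hτ (f 1 - f 2) (f 3 - f 2) hne
  have e1 : f 1 - f 2 + (f 3 - f 2) = f 3 - f 0 := by
    rw [hu]; abel
  have e2 : f 1 - f 2 - (f 3 - f 2) = f 1 - f 3 := by abel
  rw [e1, e2, h30, h13, h12, h32] at hlt
  nlinarith

/-- The first unit vector of `Pl t`. -/
def e₁ (t : ℝ) : Pl t := ((1, 0) : ℝ × ℝ)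

lemma infinite_dim (τ : ℝ) : ¬ FiniteDimensional ℝ (XX τ) := by
  intro hfin
  have hli : LinearIndependent ℝ
      (fun n : ℕ => lp.single (E := fun n : ℕ => Pl (tt τ n)) 2 n (e₁ (tt τ n))) := by
    rw [linearIndependent_iff']
    intro s g hg i hi
    have h1 := congrArg (fun z : XX τ => z i) hg
    simp only [lp.coeFn_sum, lp.coeFn_smul, Finset.sum_apply, lp.coeFn_zero] at h1
    rw [Finset.sum_eq_single i] at h1
    · rw [Pi.smul_apply, lp.single_apply_self] at h1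
      have h3 := congrArg Prod.fst h1
      have h4 : g i * 1 = 0 := h3
      simpa using h4
    · intro j _ hji
      rw [Pi.smul_apply, lp.single_apply_ne _ _ _ hji.symm, smul_zero]
    · intro h; exact absurd hi h
  have := hfin
  have hfinite : Finite ℕ := LinearIndependent.finite hli
  exact not_finite ℕ

/-! ### The norm of `X` is close to a Hilbert norm -/

/-- The Hilbert space `ℓ₂(ℕ; ℝ²)`. -/
abbrev HH : Type := lp (fun _ : ℕ => WithLp 2 (ℝ × ℝ)) 2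

/-- The identity from the Euclidean plane to `Pl t`. -/
def idPl (t : ℝ) : WithLp 2 (ℝ × ℝ) ≃ₗ[ℝ] Pl t := WithLp.linearEquiv 2 ℝ (ℝ × ℝ)

lemma idPl_norm {t τ : ℝ} (ht : 0 ≤ t) (htτ : t ≤ τ) (v : WithLp 2 (ℝ × ℝ)) :
    ‖v‖ ^ 2 ≤ ‖idPl t v‖ ^ 2 ∧ ‖idPl t v‖ ^ 2 ≤ (1 + 2 * τ) * ‖v‖ ^ 2 := by
  have h1 := norm_sq t ht (idPl t v)
  have h2 := WithLp.prod_norm_sq_eq_of_L2 v
  simp only [Real.norm_eq_abs, sq_abs] at h2
  have e1 : (idPl t v).1 = v.fst := rfl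
  have e2 : (idPl t v).2 = v.snd := rfl
  rw [e1, e2] at h1
  have h3 : 0 ≤ t * (|v.fst| + |v.snd|) ^ 2 := by positivity
  have h4 : (|v.fst| + |v.snd|) ^ 2 ≤ 2 * (v.fst ^ 2 + v.snd ^ 2) := by
    have := sq_abs v.fst
    have := sq_abs v.snd
    nlinarith [sq_nonneg (|v.fst| - |v.snd|)]
  have hτ : 0 ≤ τ := ht.trans htτ
  rw [h1, h2]
  refine ⟨by linarith, ?_⟩
  have h6 : t * (|v.fst| + |v.snd|) ^ 2 ≤ τ * (2 * (v.fst ^ 2 + v.snd ^ 2)) :=
    mul_le_mul htτ h4 (by positivity) hτ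
  nlinarith

/-- The linear map from `X` to `ℓ₂(ℕ; ℝ²)` which is the identity on coordinates. -/
noncomputable def toHH {τ : ℝ} (hτ : 0 < τ) : XX τ →ₗ[ℝ] HH where
  toFun x := ⟨fun n => (idPl (tt τ n)).symm (x n), by
    refine Memℓp.mono' (lp.memℓp x) (fun n => ?_)
    have := (idPl_norm (tt_nonneg hτ n) (tt_lt hτ n).le ((idPl (tt τ n)).symm (x n))).1
    rw [LinearEquiv.apply_symm_apply] at this
    exact le_of_sq_le_sq this (norm_nonneg _)⟩
  map_add' x y := by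
    ext1
    funext n
    exact map_add (idPl (tt τ n)).symm (x n) (y n)
  map_smul' c x := by
    ext1
    funext n
    exact map_smul (idPl (tt τ n)).symm c (x n)

lemma toHH_norm {τ : ℝ} (hτ : 0 < τ) (x : XX τ) :
    ‖toHH hτ x‖ ^ 2 ≤ ‖x‖ ^ 2 ∧ ‖x‖ ^ 2 ≤ (1 + 2 * τ) * ‖toHH hτ x‖ ^ 2 := by
  have h0 := hasSum_sq (toHH hτ x)
  have h1 := hasSum_sq x
  have key : ∀ n, ‖toHH hτ x n‖ ^ 2 ≤ ‖x n‖ ^ 2 ∧
      ‖x n‖ ^ 2 ≤ (1 + 2 * τ) * ‖toHH hτ x n‖ ^ 2 := by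
    intro n
    have := idPl_norm (tt_nonneg hτ n) (tt_lt hτ n).le ((idPl (tt τ n)).symm (x n))
    rwa [LinearEquiv.apply_symm_apply] at this
  exact ⟨hasSum_le (fun n => (key n).1) h0 h1,
    hasSum_le (fun n => (key n).2) h1 (h0.mul_left (1 + 2 * τ))⟩

/-- The inner product of `ℓ₂(ℕ; ℝ²)` transported to `X`. -/
noncomputable def bil {τ : ℝ} (hτ : 0 < τ) : LinearMap.BilinForm ℝ (XX τ) :=
  LinearMap.mk₂ ℝ (fun x y => inner ℝ (toHH hτ x) (toHH hτ y))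
    (fun x x' y => by rw [map_add, inner_add_left])
    (fun c x y => by rw [map_smul, real_inner_smul_left, smul_eq_mul])
    (fun x y y' => by rw [map_add, inner_add_right])
    (fun c x y => by rw [map_smul, real_inner_smul_right, smul_eq_mul])

lemma bil_apply {τ : ℝ} (hτ : 0 < τ) (x y : XX τ) :
    bil hτ x y = inner ℝ (toHH hτ x) (toHH hτ y) := rfl

lemma bil_self {τ : ℝ} (hτ : 0 < τ) (x : XX τ) : bil hτ x x = ‖toHH hτ x‖ ^ 2 := by
  rw [bil_apply]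
  exact real_inner_self_eq_norm_sq _

lemma bil_comm {τ : ℝ} (hτ : 0 < τ) (x y : XX τ) : bil hτ x y = bil hτ y x := by
  rw [bil_apply, bil_apply]
  exact real_inner_comm _ _

/-- **Disproof.** For every `η > 0` there are an infinite-dimensional uniformly convex real Banach
space `X`, whose squared norm is `(1+η)`-equivalent to an inner product, and a four-point metric
space `M` which embeds almost isometrically into `X` but does not embed isometrically. -/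
theorem result (η : ℝ) (hη : 0 < η) :
    ∃ (X : Type) (_ : NormedAddCommGroup X) (_ : NormedSpace ℝ X) (_ : CompleteSpace X)
      (_ : UniformConvexSpace X) (M : Type) (_ : MetricSpace M),
      ¬ FiniteDimensional ℝ X ∧
      (∃ B : LinearMap.BilinForm ℝ X, (∀ x y, B x y = B y x) ∧
        ∀ x, B x x ≤ ‖x‖ ^ 2 ∧ ‖x‖ ^ 2 ≤ (1 + η) * B x x) ∧
      Nat.card M = 4 ∧
      (∀ ε : ℝ, 0 < ε → ∃ f : M → X, ∀ a b : M,
        dist a b ≤ dist (f a) (f b) ∧ dist (f a) (f b) ≤ (1 + ε) * dist a b) ∧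
      ¬ ∃ f : M → X, Isometry f := by
  have hτ : 0 < η / 2 := by positivity
  have hd : ∀ a b : Fin 4,
      (MetricSpace.induced (pts (η / 2)) (pts_injective (η / 2)) inferInstance).dist a b =
        ‖pts (η / 2) a - pts (η / 2) b‖ := by
    intro a b
    exact dist_eq_norm (pts (η / 2) a) (pts (η / 2) b)
  let inst : MetricSpace (Fin 4) :=
    MetricSpace.induced (pts (η / 2)) (pts_injective (η / 2)) inferInstance
  refine ⟨XX (η / 2), inferInstance, inferInstance, inferInstance, XX_uc hτ, Fin 4,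
    inst, infinite_dim (η / 2),
    ⟨bil hτ, bil_comm hτ, fun x => ?_⟩, ?_, ?_, ?_⟩
  · rw [bil_self]
    have h := toHH_norm hτ x
    rwa [show 1 + 2 * (η / 2) = 1 + η by ring] at h
  · simp
  · intro ε hε
    obtain ⟨f, hf⟩ := almost hτ ε hε
    refine ⟨f, fun a b => ?_⟩
    rw [hd, dist_eq_norm]
    exact hf a b
  · rintro ⟨f, hf⟩
    refine not_iso hτ ⟨f, fun a b => ?_⟩
    rw [← hd, ← dist_eq_norm]
    exact hf.dist_eq a b

end Pool.Agent.Results.MP_6d826c_an.AlmostNotIsometric
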